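import Pool.Agent.helper17.MLG.Spec

/-! # Row mlg:BLC (MP_84f457_gt): cutting a set near a ball -/

set_option autoImplicit false
set_option linter.unusedSectionVars false

namespace Pool.Agent.MLG

open MeasureTheory Set Filter Topology Module
open scoped ENNReal ContDiff

theorem BLC_meas (V : Type) [NormedAddCommGroup V] [InnerProductSpace ℝ V] [FiniteDimensional ℝ V]
    [MeasurableSpace V] [BorelSpace V] [Group V] (hV : IsLie V) (x : V) (r : ℝ) :
    MeasurableSet (bl x r) := by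
  have e : bl x r = (fun y => x⁻¹ * y) ⁻¹' (Metric.ball (1 : V) r) := by
    ext y
    constructor
    · rintro ⟨w, hw, rfl⟩
      show x⁻¹ * (x * w) ∈ Metric.ball (1 : V) r
      rw [inv_mul_cancel_left]
      exact hw
    · intro hy
      exact ⟨x⁻¹ * y, hy, mul_inv_cancel_left x y⟩
  rw [e]
  exact ((smooth_left hV x⁻¹).continuous.isOpen_preimage _ Metric.isOpen_ball).measurableSet

theorem BLC (hCUT : CUT_stmt) (hCTB : CTB_stmt) (hVBL : VBL_stmt) : BLC_stmt := by
  intro V _ _ _ _ _ _ hV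
  obtain ⟨C, r₀, hC, hr₀, h⟩ := hCTB V hV
  refine ⟨C, r₀, hC, hr₀, fun A x ρ ρ' hA hρ hρρ' hρ' => ?_⟩
  obtain ⟨z, hz, hz1, hz0, hzg⟩ := h x ρ ρ' hρ hρρ' hρ'
  obtain ⟨t, ht, hcut⟩ := hCUT V hV A z hA hz
  refine ⟨{y | t < z y}, measurableSet_lt measurable_const hz.smooth.continuous.measurable, ?_, ?_, ?_⟩
  · intro y hy
    show t < z y
    rw [hz1 y hy]
    exact ht.2
  · intro y hy
    by_contra hn
    have h1 : t < z y := hy
    rw [hz0 y hn] at h1
    exact absurd h1 (not_lt.2 ht.1.le)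
  · refine hcut.trans (add_le_add le_rfl ?_)
    have hd : 0 < ρ' - ρ := sub_pos.2 hρρ'
    have hpt : ∀ y, ‖gr z y‖ₑ ≤ (bl x ρ').indicator (fun _ => ENNReal.ofReal (C / (ρ' - ρ))) y := by
      intro y
      by_cases hy : y ∈ bl x ρ'
      · rw [Set.indicator_of_mem hy, ← ofReal_norm_eq_enorm]
        exact ENNReal.ofReal_le_ofReal (hzg y)
      · rw [Set.indicator_of_notMem hy]
        have hzy : z y = 0 := hz0 y hy
        have hmin : IsLocalMin z y := by
          refine Filter.Eventually.of_forall fun w => ?_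
          rw [hzy]
          exact hz.nonneg w
        have hfd : fderiv ℝ z y = 0 := hmin.fderiv_eq_zero
        have hgr : gr z y = 0 := by
          unfold gr
          rw [hfd, ContinuousLinearMap.zero_comp, map_zero]
        rw [hgr, enorm_zero]
    have h1 : ∫⁻ y in A, ‖gr z y‖ₑ ∂(vol V) ≤
        ENNReal.ofReal (C / (ρ' - ρ)) * vol V (A ∩ bl x ρ') := by
      refine (lintegral_mono hpt).trans ?_
      rw [lintegral_indicator_const (BLC_meas V hV x ρ'), Measure.restrict_apply (BLC_meas V hV x ρ'),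
        Set.inter_comm]
    calc 2 * ∫⁻ y in A, ‖gr z y‖ₑ ∂(vol V)
        ≤ 2 * (ENNReal.ofReal (C / (ρ' - ρ)) * vol V (A ∩ bl x ρ')) := by gcongr
      _ = ENNReal.ofReal (2 * C / (ρ' - ρ)) * vol V (A ∩ bl x ρ') := by
        rw [← mul_assoc, mul_div_assoc, ENNReal.ofReal_mul (by norm_num : (0 : ℝ) ≤ 2)]
        norm_num

end Pool.Agent.MLG
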