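import Pool.Agent.helper17.MLG.Spec

/-! # Row mlg:CGR (MP_84f457_gt): the gradient of a left convolution -/

set_option autoImplicit false
set_option linter.unusedSectionVars false

namespace Pool.Agent.MLG

open MeasureTheory Set Filter Topology Module
open scoped ENNReal ContDiff

theorem CGR (hFRA : FRA_stmt) (hMES : MES_stmt) (hGRR : GRR_stmt) : CGR_stmt := by
  intro V _ _ _ _ _ _ hV m h hm hh hhc x
  obtain ⟨hHaar, _, _⟩ := hMES V hV
  obtain ⟨_, hgc, _, _, _, _, _, hgl⟩ := hGRR V hV
  have htop := top hV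
  -- the kernel
  have hΦ : ContDiff ℝ ∞ (fun p : V × V => h (p.1⁻¹ * p.2)) := by
    have h1 : ContDiff ℝ ∞ (fun p : V × V => (p.1)⁻¹) := ContDiff.comp (g := fun x : V => x⁻¹)
      (f := fun p : V × V => p.1) hV.2 contDiff_fst
    have h2 : ContDiff ℝ ∞ (fun p : V × V => (p.1⁻¹, p.2)) := h1.prodMk contDiff_snd
    have h3 : ContDiff ℝ ∞ (fun p : V × V => p.1⁻¹ * p.2) := ContDiff.comp
      (g := fun p : V × V => p.1 * p.2) (f := fun p : V × V => (p.1⁻¹, p.2)) hV.1 h2
    exact ContDiff.comp (g := h) (f := fun p : V × V => p.1⁻¹ * p.2) hh h3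
  have hΦd : Continuous (fun p : V × V =>
      (fderiv ℝ (fun p : V × V => h (p.1⁻¹ * p.2)) p).comp (ContinuousLinearMap.inr ℝ V V)) := by
    have h1 : Continuous (fderiv ℝ (fun p : V × V => h (p.1⁻¹ * p.2))) :=
      hΦ.continuous_fderiv (by simp)
    exact h1.clm_comp continuous_const
  have hder : ∀ g y : V, HasFDerivAt (fun y : V => h (g⁻¹ * y))
      ((fderiv ℝ (fun p : V × V => h (p.1⁻¹ * p.2)) (g, y)).comp (ContinuousLinearMap.inr ℝ V V)) y := by
    intro g y
    have h1 : HasFDerivAt (fun p : V × V => h (p.1⁻¹ * p.2))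
        (fderiv ℝ (fun p : V × V => h (p.1⁻¹ * p.2)) (g, y)) (g, y) :=
      (hΦ.differentiable (by simp)).differentiableAt.hasFDerivAt
    exact h1.comp y (hasFDerivAt_prodMk_right g y)
  have hcont_m : Continuous m := hm.smooth.continuous
  -- compactness
  have hK : IsCompact (tsupport m ×ˢ Metric.closedBall x 1) := hm.supp.isCompact.prod
    (isCompact_closedBall x 1)
  obtain ⟨M, hM⟩ := hK.exists_bound_of_continuousOn hΦd.continuousOn
  have hmain : HasFDerivAt (fun y => ∫ g, m g * h (g⁻¹ * y) ∂(vol V))
      (∫ g, m g • ((fderiv ℝ (fun p : V × V => h (p.1⁻¹ * p.2)) (g, x)).comp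
        (ContinuousLinearMap.inr ℝ V V)) ∂(vol V)) x := by
    refine hasFDerivAt_integral_of_dominated_of_fderiv_le
      (F := fun y g => m g * h (g⁻¹ * y))
      (F' := fun y g => m g • ((fderiv ℝ (fun p : V × V => h (p.1⁻¹ * p.2)) (g, y)).comp
        (ContinuousLinearMap.inr ℝ V V))) (bound := fun g => |m g| * M)
      (Metric.closedBall_mem_nhds x one_pos) ?_ ?_ ?_ ?_ ?_ ?_
    · refine Filter.Eventually.of_forall fun y => ?_
      refine Continuous.aestronglyMeasurable ?_
      exact hcont_m.mul (hΦ.continuous.comp (continuous_id.prodMk continuous_const))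
    · refine Continuous.integrable_of_hasCompactSupport ?_ ?_
      · exact hcont_m.mul (hΦ.continuous.comp (continuous_id.prodMk continuous_const))
      · exact hm.supp.mul_right
    · refine Continuous.aestronglyMeasurable ?_
      exact hcont_m.smul (hΦd.comp (continuous_id.prodMk continuous_const))
    · refine Filter.Eventually.of_forall fun g y hy => ?_
      rw [norm_smul, Real.norm_eq_abs]
      by_cases hg : g ∈ tsupport m
      · exact mul_le_mul_of_nonneg_left (hM (g, y) ⟨hg, hy⟩) (abs_nonneg _)
      · rw [image_eq_zero_of_notMem_tsupport hg, abs_zero, zero_mul, zero_mul]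
    · refine Continuous.integrable_of_hasCompactSupport (hcont_m.abs.mul continuous_const) ?_
      exact HasCompactSupport.mul_right (hm.supp.abs)
    · refine Filter.Eventually.of_forall fun g y _ => ?_
      exact (hder g y).const_mul (m g)
  have hint1 : Integrable (fun g => m g • ((fderiv ℝ (fun p : V × V => h (p.1⁻¹ * p.2)) (g, x)).comp
        (ContinuousLinearMap.inr ℝ V V))) (vol V) := by
    refine Continuous.integrable_of_hasCompactSupport
      (hcont_m.smul (hΦd.comp (continuous_id.prodMk continuous_const))) ?_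
    exact hm.supp.smul_right
  have hint2 : Integrable (fun g => m g • gr h (g⁻¹ * x)) (vol V) := by
    refine Continuous.integrable_of_hasCompactSupport ?_ ?_
    · have h1 : Continuous (gr h) := hgc h (hh.of_le (by simp))
      have h2 : Continuous fun g : V => g⁻¹ * x := (smooth_right hV x).continuous.comp hV.2.continuous
      exact hcont_m.smul (h1.comp h2)
    · exact hm.supp.smul_right
  refine ext_inner_right ℝ fun v => ?_
  rw [inner_gr, real_inner_comm, ← integral_inner hint2 v]
  have hfd : fderiv ℝ (cv m h) x = ∫ g, m g • ((fderiv ℝ (fun p : V × V => h (p.1⁻¹ * p.2)) (g, x)).comp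
        (ContinuousLinearMap.inr ℝ V V)) ∂(vol V) := hmain.fderiv
  rw [hfd, ContinuousLinearMap.integral_apply hint1]
  refine integral_congr_ae (Filter.Eventually.of_forall fun g => ?_)
  show (m g • ((fderiv ℝ (fun p : V × V => h (p.1⁻¹ * p.2)) (g, x)).comp
        (ContinuousLinearMap.inr ℝ V V))) (fr x v) = inner ℝ v (m g • gr h (g⁻¹ * x))
  rw [← (hder g x).fderiv, real_inner_comm, real_inner_smul_left,
    ← hgl h (hh.differentiable (by simp)) g⁻¹ x, inner_gr]
  rfl

end Pool.Agent.MLG
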