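import Pool.Agent.helper17.MLG.Spec

/-! # Row mlg:CLE (MP_84f457_gt): clean-up lemma, inside -/

set_option autoImplicit false
set_option linter.unusedSectionVars false

namespace Pool.Agent.MLG

open MeasureTheory Set Filter Topology Module
open scoped ENNReal ContDiff

theorem CLE_conc (f : ℝ → ℝ) (hf : ConcaveOn ℝ (Ioi 0) f) (hf0 : ∀ v, 0 ≤ f v) (v s : ℝ) (hv : 0 < v)
    (hs : 0 ≤ s) (hsv : s ≤ v / 2) : f v - 2 * f v / v * s ≤ f (v - s) := by
  have h1 : 0 ≤ 1 - 2 * s / v := by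
    rw [sub_nonneg, div_le_one hv]
    linarith
  have h2 : 0 ≤ 2 * s / v := by positivity
  have h3 := hf.2 (show v ∈ Ioi (0 : ℝ) from hv) (show v / 2 ∈ Ioi (0 : ℝ) from half_pos hv) h1 h2
    (by ring)
  have h4 : (1 - 2 * s / v) • v + (2 * s / v) • (v / 2) = v - s := by
    simp only [smul_eq_mul]
    field_simp
    ring
  rw [h4] at h3
  have h5 : 0 ≤ (2 * s / v) • f (v / 2) := by
    rw [smul_eq_mul]
    exact mul_nonneg h2 (hf0 _)
  have h6 : (1 - 2 * s / v) • f v = f v - 2 * f v / v * s := by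
    rw [smul_eq_mul]
    ring
  rw [h6] at h3
  linarith

theorem CLE_mono (V : Type) [NormedAddCommGroup V] [InnerProductSpace ℝ V] [FiniteDimensional ℝ V]
    [MeasurableSpace V] [BorelSpace V] [Group V] (x : V) (r r' : ℝ) (h : r ≤ r') : bl x r ⊆ bl x r' :=
  Set.image_mono (Metric.ball_subset_ball h)

theorem CLE (hCON : CON_stmt) (hISO : ISO_stmt) (hBLC : BLC_stmt) (hITR : ITR_stmt) (hVBL : VBL_stmt)
    (hPER : PER_stmt) : CLE_stmt := by
  intro V _ _ _ _ _ _ hV hn E v hv hE hEv hEp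
  obtain ⟨hconc, _, hprof⟩ := hCON V hV hn
  obtain ⟨κ, C, r₁', hκ, hC, hr₁', hiso⟩ := hISO V hV
  obtain ⟨C', r₂, hC', hr₂, hblc⟩ := hBLC V hV
  have hIp0 : ∀ w, 0 ≤ Ip V w := fun w => ENNReal.toReal_nonneg
  obtain ⟨ε, r₁, hε, hr₁, hr₁0, hitr⟩ := hITR (finrank ℝ V) κ C C' (2 * Ip V v / v) (min r₁' r₂)
    hn hκ hC hC' (by have := hIp0 v; positivity) (lt_min hr₁' hr₂)
  refine ⟨ε, min r₁ (min 1 (v / (2 * ε))), hε, by positivity, fun x r hr hrr hvol => ?_⟩
  have hr1 : r ≤ r₁ := hrr.trans (min_le_left _ _)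
  have hr2 : r ≤ 1 := hrr.trans ((min_le_right _ _).trans (min_le_left _ _))
  have hr3 : r ≤ v / (2 * ε) := hrr.trans ((min_le_right _ _).trans (min_le_right _ _))
  have hrn : r ^ finrank ℝ V ≤ r := by
    calc r ^ finrank ℝ V ≤ r ^ 1 := pow_le_pow_of_le_one hr.le hr2 hn
      _ = r := pow_one r
  have hεr : ε * r ^ finrank ℝ V ≤ v / 2 := by
    calc ε * r ^ finrank ℝ V ≤ ε * r := by gcongr
      _ ≤ ε * (v / (2 * ε)) := by gcongr
      _ = v / 2 := by field_simp
  have hfinE : vol V E ≠ ⊤ := by rw [hEv]; exact ENNReal.ofReal_ne_top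
  have hfin : ∀ S : Set V, vol V (E ∩ S) ≠ ⊤ := fun S =>
    ne_top_of_le_ne_top hfinE (measure_mono Set.inter_subset_left)
  have hmr : (vol V (E ∩ bl x r)).toReal ≤ ε * r ^ finrank ℝ V :=
    ENNReal.toReal_le_of_le_ofReal (by positivity) hvol
  have hres := hitr r (fun ρ => (vol V (E ∩ bl x ρ)).toReal) hr hr1
    (fun ρ => ENNReal.toReal_nonneg) ?_ hmr
  · rcases (ENNReal.toReal_eq_zero_iff _).1 hres with h | h
    · exact h
    · exact absurd h (hfin _)
  · intro ρ ρ' hρ hρρ' hρr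
    obtain ⟨S, hS, hS1, hS2, hper⟩ := hblc E x ρ ρ' hE hρ hρρ'
      (hρr.trans (hr1.trans (hr₁0.trans (min_le_right _ _))))
    refine ⟨(vol V (E ∩ S)).toReal, ?_, ?_, ?_⟩
    · exact ENNReal.toReal_mono (hfin _) (measure_mono (Set.inter_subset_inter_right _ hS1))
    · exact ENNReal.toReal_mono (hfin _) (measure_mono (Set.inter_subset_inter_right _ hS2))
    intro σ hσ hσr hsσ
    set s := (vol V (E ∩ S)).toReal with hs
    have hs0 : 0 ≤ s := ENNReal.toReal_nonneg
    have hvs : vol V (E ∩ S) = ENNReal.ofReal s := (ENNReal.ofReal_toReal (hfin _)).symm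
    have hsv : s ≤ v / 2 := by
      have h1 : s ≤ (vol V (E ∩ bl x r)).toReal := ENNReal.toReal_mono (hfin _)
        (measure_mono (Set.inter_subset_inter_right _ (hS2.trans (CLE_mono V x ρ' r hρr))))
      linarith
    have hdiff : vol V (E \ S) = ENNReal.ofReal (v - s) := by
      have h1 := measure_inter_add_diff (μ := vol V) E hS
      rw [hvs, hEv] at h1
      rw [ENNReal.ofReal_sub _ hs0, ← h1, ENNReal.add_sub_cancel_left ENNReal.ofReal_ne_top]
    have hvs0 : 0 < v - s := by linarith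
    have hper2 : ENNReal.ofReal (Ip V (v - s)) ≤ per (E \ S) := by
      rw [← hprof (v - s) hvs0]
      exact iInf_le_of_le (E \ S) (iInf_le_of_le (hE.diff hS) (iInf_le_of_le hdiff le_rfl))
    have hρd : 0 < ρ' - ρ := sub_pos.2 hρρ'
    have hmρ : vol V (E ∩ bl x ρ') = ENNReal.ofReal (vol V (E ∩ bl x ρ')).toReal :=
      (ENNReal.ofReal_toReal (hfin _)).symm
    have hm0 : 0 ≤ (vol V (E ∩ bl x ρ')).toReal := ENNReal.toReal_nonneg
    set m' := (vol V (E ∩ bl x ρ')).toReal with hm'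
    have h1 : per (E ∩ S) + ENNReal.ofReal (Ip V (v - s)) ≤
        ENNReal.ofReal (Ip V v + 2 * C' / (ρ' - ρ) * m') := by
      calc per (E ∩ S) + ENNReal.ofReal (Ip V (v - s)) ≤ per (E ∩ S) + per (E \ S) := by gcongr
        _ ≤ per E + ENNReal.ofReal (2 * C' / (ρ' - ρ)) * vol V (E ∩ bl x ρ') := hper
        _ = ENNReal.ofReal (Ip V v + 2 * C' / (ρ' - ρ) * m') := by
          rw [hEp, hprof v hv, hmρ, ← ENNReal.ofReal_mul (by positivity),
            ← ENNReal.ofReal_add (hIp0 v) (by positivity)]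
    have h2 : per (E ∩ S) ≤ ENNReal.ofReal (2 * Ip V v / v * s + 2 * C' * m' / (ρ' - ρ)) := by
      have h3 := ENNReal.le_sub_of_add_le_right ENNReal.ofReal_ne_top h1
      refine h3.trans ?_
      rw [← ENNReal.ofReal_sub _ (hIp0 _)]
      refine ENNReal.ofReal_le_ofReal ?_
      have h4 := CLE_conc (Ip V) hconc hIp0 v s hv hs0 hsv
      have h5 : 2 * C' / (ρ' - ρ) * m' = 2 * C' * m' / (ρ' - ρ) := by ring
      rw [h5]
      linarith
    have h6 := hiso (E ∩ S) (hE.inter hS) σ hσ (hσr.trans (min_le_left _ _))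
      (by rw [hvs]; exact ENNReal.ofReal_le_ofReal hsσ)
    have hnn : 0 ≤ 2 * Ip V v / v * s + 2 * C' * m' / (ρ' - ρ) := by
      have := hIp0 v
      positivity
    have h7 : ENNReal.ofReal s ≤ ENNReal.ofReal (C * σ * (2 * Ip V v / v * s + 2 * C' * m' / (ρ' - ρ))) := by
      rw [ENNReal.ofReal_mul (by positivity), ← hvs]
      exact h6.trans (by gcongr)
    exact (ENNReal.ofReal_le_ofReal_iff (by positivity)).1 h7

end Pool.Agent.MLG
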